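import Mathlib
import Pool.Agent.H27.BoxZ1

open Pool.Agent.H27.BoxZ

theorem Pool.Agent.Results.MP_625351_al.HasD.result :
    ∃ I : ℕ → Ideal (LaurentPolynomial ℤ), IsCongBox I ∧
      ∀ S : Finset G, Subgroup.closure (S : Set G) = ⊤ → PropD S I (1 / 2) :=
  q1
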