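import Mathlib
import Pool.Agent.H27.BoxZ2

open Pool.Agent.H27.BoxZ

theorem Pool.Agent.Results.MP_625351_al.NoD.result :
    ∃ I : ℕ → Ideal (LaurentPolynomial ℤ), IsCongBox I ∧
      ∀ S : Finset G, Subgroup.closure (S : Set G) = ⊤ → ∀ α : ℝ, 0 < α → ¬ PropD S I α :=
  q2
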